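import Pool.Agent.Helper31.QB.Final

/-!
# MP_ab92ec_nt: in every real quadratic field a prescribed word fills nearly the whole
expansion of infinitely many purely periodic numbers with quotients in one finite set

With v = 1, ..., 1: the quotients outside of {1, 2} are isolated and as far apart as desired.
-/

set_option autoImplicit false

namespace Pool.Agent.Results.MP_ab92ec_nt.AlmostTwoDigits

/-- D lists the partial quotients, after the integer part, of a number p + q sqrt d with
p, q rational and q nonzero -/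
def Quotients (d : ℕ) (D : ℕ → ℕ) : Prop :=
  ∃ p q : ℚ, q ≠ 0 ∧ ∀ n : ℕ,
    (GenContFract.of ((p : ℝ) + (q : ℝ) * Real.sqrt (d : ℝ))).partDens.get? n =
      some ((D n : ℕ) : ℝ)

/-- D is purely periodic with minimal period L -/
def MinPeriod (D : ℕ → ℕ) (L : ℕ) : Prop :=
  IsLeast {l : ℕ | 0 < l ∧ ∀ n, D (n + l) = D n} L

/-- D consists of pieces: four connecting digits, of which at least three are 1 or 2, and
then the word v or its reverse -/
def Pieces (v : List ℕ) (D : ℕ → ℕ) : Prop :=
  ∀ k : ℕ,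
    (∃ i < 4, ∀ r < 4, r ≠ i →
      D ((v.length + 4) * k + r) = 1 ∨ D ((v.length + 4) * k + r) = 2) ∧
    ((List.range v.length).map (fun r => D ((v.length + 4) * k + 4 + r)) = v ∨
      (List.range v.length).map (fun r => D ((v.length + 4) * k + 4 + r)) = v.reverse)

theorem result (d : ℕ) (hd2 : 2 ≤ d) (hd : Squarefree d) (v : List ℕ)
    (hv : ∀ a ∈ v, 1 ≤ a) (hev : Even v.length) :
    ∃ c c' : ℕ, ∀ K : ℕ, ∃ (D : ℕ → ℕ) (L : ℕ),
      Quotients d D ∧ MinPeriod D L ∧ K ≤ L ∧
      (∀ n, D n = 1 ∨ D n = 2 ∨ D n = c ∨ D n = c' ∨ D n ∈ v) ∧ Pieces v D :=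
  Pool.Agent.Helper31.QB.main d hd2 hd v hv hev

end Pool.Agent.Results.MP_ab92ec_nt.AlmostTwoDigits
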