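import Pool.Agent.Helper34.QF.CFINV
import Pool.Agent.Helper83.QF.CFSEQ
import Pool.Agent.Helper93.QF.FIELD
import Pool.Agent.Helper8.QF.MULT
import Pool.Agent.Helper27.QF.GAP
import Pool.Agent.Helper79.QF.COUNT
import Pool.Agent.Helper58.QF.PIG
import Pool.Agent.Helper35.QF.WORDEX
import Pool.Agent.Helper35.QF.PADIC
import Pool.Agent.Helper37.QF.LOCAL
import Pool.Agent.Helper73.QF.DIM
import Pool.Agent.Helper38.QF.FINAL

/-!
# Real quadratic fields with two partial quotients and prescribed local behaviour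
-/

set_option autoImplicit false

open scoped ENNReal NNReal

namespace Pool.Agent.Results.MP_ab92ec_nt.LocalFields

/-- All partial quotients of `x` after the integer part are `a` or `b` (in particular `x` has
infinitely many partial quotients, so `x` is irrational). -/
def QuotientsIn (a b : ℕ) (x : ℝ) : Prop :=
  ∀ n : ℕ, (GenContFract.of x).partDens.get? n = some (a : ℝ) ∨
    (GenContFract.of x).partDens.get? n = some (b : ℝ)

/-- The field `ℚ(√d)` contains a number `p + q √d`, `q ≠ 0`, all of whose partial quotients are `a`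
or `b`. -/
def FieldHas (a b d : ℕ) : Prop :=
  ∃ p q : ℚ, q ≠ 0 ∧ QuotientsIn a b ((p : ℝ) + (q : ℝ) * Real.sqrt (d : ℝ))

/-- For all positive `a ≠ b`, every `s` smaller than the Hausdorff dimension of the set of the real
numbers with partial quotients `a`, `b`, every `m ≥ 1` and every integer `D ≠ 0`: for all large `X` at
least `X^(s/2)` squarefree integers `2 ≤ d ≤ X` are such that `ℚ(√d)` contains a number with all
partial quotients in `{a, b}` and `D d` is a square in `ℚ_p` for every prime `p` dividing `m`. -/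
theorem result (a b : ℕ) (ha : 0 < a) (hb : 0 < b) (hab : a ≠ b) (s : ℝ≥0)
    (hs : (s : ℝ≥0∞) < dimH {x : ℝ | QuotientsIn a b x}) (m : ℕ) (hm : 0 < m) (D : ℤ)
    (hD : D ≠ 0) :
    ∃ X₀ : ℕ, ∀ X : ℕ, X₀ ≤ X →
      (X : ℝ) ^ ((s : ℝ) / 2) ≤
        (Set.ncard {d : ℕ | d ≤ X ∧ 2 ≤ d ∧ Squarefree d ∧ FieldHas a b d ∧
          ∀ p : ℕ, ∀ _ : Fact p.Prime, p ∣ m → IsSquare (((D * d : ℤ)) : ℚ_[p])} : ℝ) :=
  Pool.Agent.Helper38.QF.gFINAL (Pool.Agent.Helper93.QF.gFIELD Pool.Agent.Helper83.QF.gCFSEQ)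
    Pool.Agent.Helper8.QF.gMULT Pool.Agent.Helper27.QF.gGAP Pool.Agent.Helper79.QF.gCOUNT
    Pool.Agent.Helper58.QF.gPIG (Pool.Agent.Helper37.QF.gLOCAL Pool.Agent.Helper35.QF.gWORDEX)
    Pool.Agent.Helper35.QF.gPADIC (Pool.Agent.Helper73.QF.gDIM Pool.Agent.Helper34.QF.gCFINV)
    a b s m D ha hb hab hm hD hs

end Pool.Agent.Results.MP_ab92ec_nt.LocalFields
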